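import Mathlib

/-! Forbidding a word with more 1s can give a larger frequency of 1s.
Letters: `false` is 0 and `true` is 1. -/

namespace Pool.Agent.Results.MP_1f54e8_co.FreqOrder

open Filter Finset

/-- Words of length `n` that do not contain `w` as a factor. -/
def Omega (w : List Bool) (n : ℕ) : Finset (Fin n → Bool) :=
  univ.filter (fun u => ¬ w <:+: List.ofFn u)

/-- The average frequency of 1s in the words of length `n` avoiding `w`. -/
noncomputable def freq (w : List Bool) (n : ℕ) : ℝ :=
  (∑ u ∈ Omega w n, ((List.ofFn u).count true : ℝ)) / (n * (Omega w n).card)

/-- The excluded set of words. -/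
def InR (w : List Bool) : Prop :=
  ∃ k, 2 ≤ k ∧ (w = List.replicate (k - 1) true ++ [false] ∨
    w = true :: List.replicate (k - 1) false ∨
    w = List.replicate (k - 1) false ++ [true] ∨
    w = false :: List.replicate (k - 1) true)

noncomputable def Z (w : List Bool) (x : ℝ) (s : List Bool) (n : ℕ) : ℝ :=
  ∑ u : Fin n → Bool, if w <:+: s ++ List.ofFn u then 0 else x ^ (List.ofFn u).count true

lemma Z_succ (w : List Bool) (x : ℝ) (s : List Bool) (n : ℕ) :
    Z w x s (n + 1) = Z w x (s ++ [false]) n + x * Z w x (s ++ [true]) n := by
  unfold Z
  rw [← (Fin.consEquiv (fun _ => Bool)).sum_comp, Fintype.sum_prod_type, Fintype.sum_bool,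
    add_comm, Finset.mul_sum]
  congr 1
  · refine Finset.sum_congr rfl (fun u _ => ?_)
    simp [Fin.consEquiv, List.ofFn_succ]
  · refine Finset.sum_congr rfl (fun u _ => ?_)
    simp [Fin.consEquiv, List.ofFn_succ, pow_succ, mul_comm]

def red (w : List Bool) : List Bool → List Bool
  | [] => []
  | a :: s => if (a :: s) <+: w then a :: s else red w s

lemma red_pre (w s : List Bool) : red w s <+: w := by
  induction s with
  | nil => exact List.nil_prefix
  | cons a s ih => unfold red; split_ifs with h <;> assumption

lemma red_iff (w s u : List Bool) (h : s.length ≤ w.length) :
    w <:+: s ++ u ↔ w <:+: red w s ++ u := by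
  induction s with
  | nil => rfl
  | cons a s ih =>
    unfold red
    split_ifs with h1
    · rfl
    · rw [← ih (by simp at h; omega), List.cons_append, List.infix_cons_iff]
      refine ⟨fun h2 => h2.resolve_left (fun h3 => h1 ?_), Or.inr⟩
      exact List.prefix_of_prefix_length_le (List.prefix_append (a :: s) u) h3 h

def nxt (w : List Bool) (i : ℕ) (b : Bool) : ℕ := (red w (w.take i ++ [b])).length

lemma nxt_le (w : List Bool) (i : ℕ) (b : Bool) : nxt w i b ≤ w.length :=
  (red_pre _ _).length_le

lemma Z_step (w : List Bool) (x : ℝ) (i n : ℕ) (hi : i < w.length) :
    Z w x (w.take i) (n + 1) =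
      Z w x (w.take (nxt w i false)) n + x * Z w x (w.take (nxt w i true)) n := by
  have : ∀ b, Z w x (w.take i ++ [b]) n = Z w x (w.take (nxt w i b)) n := by
    intro b
    unfold Z nxt
    rw [← List.prefix_iff_eq_take.1 (red_pre _ _)]
    refine Finset.sum_congr rfl (fun u _ => ?_)
    simp only [red_iff w (w.take i ++ [b]) _ (by simp; omega)]
  rw [Z_succ, this, this]

lemma Z_full (w : List Bool) (x : ℝ) (n : ℕ) : Z w x (w.take w.length) n = 0 := by
  unfold Z
  refine Finset.sum_eq_zero (fun u _ => ?_)
  rw [List.take_length, if_pos (List.prefix_append _ _).isInfix]

lemma Z_zero (w : List Bool) (x : ℝ) (i : ℕ) (hi : i < w.length) : Z w x (w.take i) 0 = 1 := by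
  have : ¬ w <:+: w.take i := fun h => by
    have := h.length_le
    simp at this; omega
  simp [Z, this]

def CU (w : List Bool) (x l : ℚ) (H : List ℕ) : Prop :=
  ∀ i < w.length, 1 ≤ H.getD i 0 ∧
    (H.getD (nxt w i false) 0 : ℚ) + x * H.getD (nxt w i true) 0 ≤ l * H.getD i 0

def CL (w : List Bool) (l : ℚ) (H : List ℕ) : Prop :=
  H.getD w.length 0 = 0 ∧ ∀ i < w.length, H.getD i 0 ≤ 10 ^ 41 ∧
    l * H.getD i 0 ≤ (H.getD (nxt w i false) 0 : ℚ) + H.getD (nxt w i true) 0

instance (w x l H) : Decidable (CU w x l H) := by unfold CU; infer_instance
instance (w l H) : Decidable (CL w l H) := by unfold CL; infer_instance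

lemma upper {w : List Bool} {x l : ℚ} {H : List ℕ} (h : CU w x l H) (hx : 0 ≤ x) (hl : 0 ≤ l)
    (n : ℕ) : ∀ i ≤ w.length, Z w x (w.take i) n ≤ (l : ℝ) ^ n * (H.getD i 0 : ℕ) := by
  have hx' : (0 : ℝ) ≤ x := by exact_mod_cast hx
  have hl' : (0 : ℝ) ≤ l := by exact_mod_cast hl
  induction n with
  | zero =>
    intro i hi
    rcases hi.lt_or_eq with hi | rfl
    · rw [Z_zero _ _ _ hi, pow_zero, one_mul]; exact_mod_cast (h i hi).1
    · rw [Z_full]; positivity
  | succ n ih =>
    intro i hi
    rcases hi.lt_or_eq with hi | rfl
    · rw [Z_step _ _ _ _ hi]
      have h1 := ih _ (nxt_le w i false)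
      have h2 := mul_le_mul_of_nonneg_left (ih _ (nxt_le w i true)) hx'
      have h3 : ((H.getD (nxt w i false) 0 : ℕ) : ℝ) + x * (H.getD (nxt w i true) 0 : ℕ) ≤
          l * (H.getD i 0 : ℕ) := by exact_mod_cast (h i hi).2
      have h4 := mul_le_mul_of_nonneg_left h3 (pow_nonneg hl' n)
      rw [pow_succ]
      linarith
    · rw [Z_full]; positivity

lemma lower {w : List Bool} {l : ℚ} {H : List ℕ} (h : CL w l H) (hl : 0 ≤ l)
    (n : ℕ) : ∀ i ≤ w.length, (l : ℝ) ^ n * (H.getD i 0 : ℕ) ≤ 10 ^ 41 * Z w 1 (w.take i) n := by
  have hl' : (0 : ℝ) ≤ l := by exact_mod_cast hl
  induction n with
  | zero =>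
    intro i hi
    rcases hi.lt_or_eq with hi | rfl
    · rw [Z_zero _ _ _ hi, pow_zero, one_mul, mul_one]; exact_mod_cast (h.2 i hi).1
    · rw [Z_full, h.1]; simp
  | succ n ih =>
    intro i hi
    rcases hi.lt_or_eq with hi | rfl
    · rw [Z_step _ _ _ _ hi]
      have h1 := ih _ (nxt_le w i false)
      have h2 := ih _ (nxt_le w i true)
      have h3 : l * (H.getD i 0 : ℕ) ≤ ((H.getD (nxt w i false) 0 : ℕ) : ℝ) +
          (H.getD (nxt w i true) 0 : ℕ) := by exact_mod_cast (h.2 i hi).2
      have h4 := mul_le_mul_of_nonneg_left h3 (pow_nonneg hl' n)
      rw [pow_succ]
      linarith
    · rw [Z_full, h.1]; simp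

lemma Z_eq (w : List Bool) (x : ℝ) (n : ℕ) :
    Z w x (w.take 0) n = ∑ u ∈ Omega w n, x ^ (List.ofFn u).count true := by
  unfold Z Omega
  rw [Finset.sum_filter]
  refine Finset.sum_congr rfl (fun u _ => ?_)
  simp

lemma bound {w : List Bool} {x l m : ℚ} {H G : List ℕ} (h : CU w x l H) (g : CL w m G)
    (hx : 0 < x) (hl : 0 < l) (hm : 0 < m) (hG : 1 ≤ G.getD 0 0) (hw : 0 < w.length)
    (e : ℝ) (he : 0 < e) :
    ∀ᶠ n in atTop, Real.log x * freq w n ≤ Real.log (l / m) + e := by
  have hx' : (0 : ℝ) < x := by exact_mod_cast hx
  have hl' : (0 : ℝ) < l := by exact_mod_cast hl
  have hm' : (0 : ℝ) < m := by exact_mod_cast hm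
  have hG' : (1 : ℝ) ≤ (G.getD 0 0 : ℕ) := by exact_mod_cast hG
  have hH : (1 : ℝ) ≤ (H.getD 0 0 : ℕ) := by exact_mod_cast (h 0 hw).1
  set K : ℝ := 10 ^ 41 * (H.getD 0 0 : ℕ) with hK
  have hK0 : 0 < K := by positivity
  filter_upwards [(tendsto_const_div_atTop_nhds_zero_nat (Real.log K)).eventually
    (ge_mem_nhds he), eventually_gt_atTop 0] with n hn hn0
  have hn' : (0 : ℝ) < n := by exact_mod_cast hn0
  have h1 := upper h hx.le hl.le n 0 (Nat.zero_le _)
  have h2 := lower g hm.le n 0 (Nat.zero_le _)
  rw [Z_eq] at h1 h2
  simp only [one_pow, Finset.sum_const, nsmul_eq_mul, mul_one] at h2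
  set c : ℝ := ((Omega w n).card : ℝ) with hc
  have hmn : (0 : ℝ) < m ^ n := pow_pos hm' n
  have h3 : (m : ℝ) ^ n ≤ 10 ^ 41 * c := le_trans (by nlinarith) h2
  have hc0 : 0 < c := by nlinarith
  set a : ℝ := Real.log x * (n * freq w n) with ha
  have hS : ∑ u ∈ Omega w n, ((List.ofFn u).count true : ℝ) = n * freq w n * c := by
    unfold freq; rw [← hc]; field_simp
  have h4 : c * Real.exp a ≤ ∑ u ∈ Omega w n, (x : ℝ) ^ (List.ofFn u).count true := by
    have : ∀ u ∈ Omega w n, Real.exp a * (Real.log x * ((List.ofFn u).count true : ℝ) - a + 1) ≤
        (x : ℝ) ^ (List.ofFn u).count true := by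
      intro u _
      have := Real.add_one_le_exp (Real.log x * ((List.ofFn u).count true : ℝ) - a)
      calc _ ≤ Real.exp a * Real.exp (Real.log x * ((List.ofFn u).count true : ℝ) - a) :=
            mul_le_mul_of_nonneg_left this (Real.exp_pos a).le
        _ = _ := by
            rw [← Real.exp_add, add_sub_cancel, mul_comm, Real.exp_nat_mul, Real.exp_log hx']
    refine le_trans (le_of_eq ?_) (Finset.sum_le_sum this)
    rw [← Finset.mul_sum, Finset.sum_add_distrib, Finset.sum_sub_distrib, ← Finset.mul_sum, hS]
    simp only [Finset.sum_const, nsmul_eq_mul, ← hc]
    rw [ha]; ring
  have h5 : Real.exp a ≤ K * (l / m) ^ n := by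
    rw [div_pow, ← mul_div_assoc, le_div_iff₀ hmn]
    have := Real.exp_pos a
    nlinarith [h4.trans h1]
  have h6 := Real.log_le_log (Real.exp_pos a) h5
  rw [Real.log_exp, Real.log_mul hK0.ne' (by positivity), Real.log_pow] at h6
  rw [div_le_iff₀ hn'] at hn
  have : n * (Real.log x * freq w n) ≤ n * (Real.log (l / m) + e) := by nlinarith
  exact le_of_mul_le_mul_left this hn'

def wv : List Bool := List.replicate 29 true ++ List.replicate 15 false

def ww : List Bool := (List.replicate 14 [true, true, false]).flatten ++ [true, true]

def Ha : List ℕ := [40000000000000000000000000000000000000000,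
  39999999999995452526491124214012365774539,
  39999999999986357579473373163572453680669,
  39999999999968167685437872105763342206973,
  39999999999931787897366872076286544687552,
  39999999999859028321224876189615800504408,
  39999999999713509168940892760840013849040,
  39999999999422470864372942592419843959187,
  39999999998840394255237075633842311019331,
  39999999997676241036965408473212858815493,
  39999999995347934600422207665005181751910,
  39999999990691321727336073074692282297616,
  39999999981378095981164337946271392704145,
  39999999962751644488821935793839432086193,
  39999999925498741504139267697795147865770,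
  39999999850992935534778203923345853210888,
  39999999701981323596064621209725810983066,
  39999999403958099718654545453042819711324,
  39999998807911651963868573280791021575682,
  39999997615818756454364987618515790200165,
  39999995231632965435494533658422049400820,
  39999990463261383398027060467147996025829,
  39999980926518219323638983542426714363881,
  39999961853031891175956568608637738497322,
  39999923706059234882779216572366836241420,
  39999847412113922300799468162438879809137,
  39999694824223297145589882667810161353780,
  39999389648442046852670534329006109761824,
  39998779296879546301831482952302770216106,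
  39997558593754545270152670800701604402418,
  39997558593749998074199550650398743571796,
  39995117187499996423513451207984136658884,
  39990234374999993397255602230310570582250,
  39980468749999987894968604089243732161258,
  39960937499999977990852007435608639251619,
  39921874999999960383533613385211614232621,
  39843749999999929570726423797915871666359,
  39687499999999876748771241649824973219658,
  39374999999999788712179271405652293182607,
  38749999999999647853632119019341053790619,
  37499999999999436565811390446818590309694,
  34999999999999154848717085694037241831598,
  29999999999998873131622780957128797598203,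
  19999999999998873131622780988874606087609]

def Hb : List ℕ := [40000000000000000000000000000000000000000,
  39999999999995452526491124243570943582309,
  39999999999986357579473373247700713595097,
  39999999999968167685437872289936019316954,
  39999999999931787897366872442358162153111,
  39999999999859028321224876883105510610076,
  39999999999713509168940894036406333092840,
  39999999999422470864372944886620229195093,
  39999999998840394255237079674272523671170,
  39999999997676241036965415424026117162703,
  39999999995347934600422219272431313217004,
  39999999990691321727336091667037723453029,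
  39999999981378095981164365851842580149831,
  39999999962751644488821973012636365932759,
  39999999925498741504139304916592082156888,
  39999999850992935534778203889239803680953,
  39999999701981323596064472164007824399211,
  39999999403958099718653949372489020213022,
  39999998807911651963866785107341718669302,
  39999997615818756454360219212827725387321,
  39999995231632965435482612695360950730555,
  39999990463261383397998450203549809823975,
  39999980926518219323572226306172314009840,
  39999961853031891175803980683906832749861,
  39999923706059234882435893784354767706971,
  39999847412113922300036528675208186056292,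
  39999694824223297143911415836829626587070,
  39999389648442046849008424919900729236771,
  39998779296879546293896912605697405560193,
  39997558593754545253062827016595755950556,
  39997558593749998057109706900398807658710,
  39995117187499996391775169957986051855283,
  39990234374999993338661852230317422350085,
  39980468749999987787546729089262373106789,
  39960937499999977795539507435653585281980,
  39921874999999960031971113385312413211088,
  39843749999999928945726423798130440737089,
  39687499999999875655021241650262368145314,
  39374999999999786837179271406508225715525,
  38749999999999644728632119020944462446090,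
  37499999999999431565811390449667011252752,
  34999999999999147348717085698734323887642,
  29999999999998863131622780963957507861538,
  19999999999998863131622780996269250539552]

def Hc : List ℕ := [40000000000000000000000000000000000000000,
  39999999999996020960679735325958544667780,
  39999999999988062882039206369715442488386,
  39999999999984083842718942887109569892318,
  39999999999964188646117622667536918392439,
  39999999999924398252914984187590657817592,
  39999999999856754584470504919626194558636,
  39999999999709530129620759271444039243379,
  39999999999415081219921282473152642554849,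
  39999999998838120518483152664879716088787,
  39999999997672261997646155072942054435211,
  39999999995340544955972274698130617191693,
  39999999990689047990585546507872081746682,
  39999999981374116941851745246854562683889,
  39999999962744254844385060021811187475799,
  39999999925496467767414392299524552901500,
  39999999850988956495515856733581719501906,
  39999999701973933951726122802109929496387,
  39999999403955825982122719014452677739045,
  39999998807907672924983869390815677606200,
  39999997615811366810764866571333257505733,
  39999995231630691700409815787544428956856,
  39999990463257404361968936756020786372779,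
  39999980926510829685556748939786647239605,
  39999961853029617451670454401611720642980,
  39999923706055255867777204536327731571263,
  39999847412106532703747265604744937599415,
  39999694824221023501466478748810404113010,
  39999389648438067993665177648100082549765,
  39998779296872157008115060663037018116298,
  39997558593752272217521997003635427177001,
  39995117187500565636143609496718716413815,
  39990234374997152713806715038190745180484,
  39980468750002264487464730859742097762717,
  39960937500000551858968239920430482902043,
  39921874999997128525334301308445399702147,
  39843750000002222978995304245623700189105,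
  39687500000000482305542688382178877715235,
  39374999999997016345509801610586736542255,
  38750000000002053567149511604713214728352,
  37500000000000251189957516604221725885367,
  34999999999996769530552285051793409408940,
  30000000000001999519660132460209237690242,
  20000000000001004759830066217982719808720]

def Hd : List ℕ := [40000000000000000000000000000000000000000,
  39999999999996020960679735296399966860035,
  39999999999988062882039206285018748385421,
  39999999999984083842718942768875258661362,
  39999999999964188646117622417425875403861,
  39999999999924398252914983693621347915120,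
  39999999999856754584470503919182022604538,
  39999999999709530129620757384242533057139,
  39999999999415081219921278959660922754266,
  39999999998838120518483145116073691345492,
  39999999997672261997646141107650908659332,
  39999999995340544955972249065727750189143,
  39999999990689047990585490646707498656067,
  39999999981374116941851642805918828121806,
  39999999962744254844384873736264198716097,
  39999999925496467767413982535781614752710,
  39999999850988956495515111680069498078005,
  39999999701973933951724781676570413509212,
  39999999403955825982119738800403792810151,
  39999998807907672924978504977333348554864,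
  39999997615811366810755329807137098025991,
  39999995231630691700388358133615118648050,
  39999990463257404361930789787911893195784,
  39999980926510829685489991716605931950953,
  39999961853029617451517866529176193209972,
  39999923706055255867510175732280690595131,
  39999847412106532703289501911836493003668,
  39999694824221023500398363532622587229471,
  39999389648438067991834122965142701274323,
  39998779296872157005063302829496317266559,
  39997558593752272210197778271808556812500,
  39995117187500565623936578251236713051342,
  39990234374997152694275465017107347035446,
  39980468750002264438636605877834350765835,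
  39960937500000551780843239924811213760852,
  39921874999997128408146801287133062003592,
  39843750000002222666495304263300983687261,
  39687500000000481836792688385898437347746,
  39374999999997015720509801588262528213000,
  38750000000002051692149511620764161272402,
  37500000000000248689957516605821697040835,
  34999999999996767030552285027279685025116,
  30000000000001989519660132475493406509150,
  20000000000000994759830066225377364260657]

def x0 : ℚ := 1000000000000001 / 1000000000000000
def la : ℚ := 1999999999999887313162278105236622307 / 10 ^ 36
def lb : ℚ := 1999999999999886313162278106089273589 / 10 ^ 36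
def lc : ℚ := 1999999999999899524016993383249439600 / 10 ^ 36
def ld : ℚ := 1999999999999900524016993382409999171 / 10 ^ 36

lemma notR (w : List Bool) (h : 2 ≤ w.count true) (h' : 2 ≤ w.count false) : ¬ InR w := by
  rintro ⟨k, -, rfl | rfl | rfl | rfl⟩ <;> simp [List.count_replicate] at h h'

theorem result : ∃ v w : List Bool, ¬ InR v ∧ ¬ InR w ∧ true ∈ v ∧ false ∈ v ∧ true ∈ w ∧
    false ∈ w ∧ v.length = w.length ∧ v.count true < w.count true ∧
    ∃ c d : ℝ, c < d ∧ ∀ᶠ n in atTop, freq v n ≤ c ∧ d ≤ freq w n := by
  refine ⟨wv, ww, notR _ (by decide) (by decide), notR _ (by decide) (by decide), by decide,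
    by decide, by decide, by decide, by decide, by decide, ?_⟩
  have hx : (1 : ℝ) < x0 := by exact_mod_cast (show (1 : ℚ) < x0 by decide +kernel)
  have ht : 0 < Real.log x0 := Real.log_pos hx
  have p1 : (0 : ℝ) < la / lb := by exact_mod_cast (show (0 : ℚ) < la / lb by decide +kernel)
  have p2 : (0 : ℝ) < lc / ld := by exact_mod_cast (show (0 : ℚ) < lc / ld by decide +kernel)
  have p3 : (la / lb * (lc / ld) : ℝ) < 1 := by
    exact_mod_cast (show (la / lb * (lc / ld) : ℚ) < 1 by decide +kernel)
  have p4 := Real.log_neg (mul_pos p1 p2) p3
  rw [Real.log_mul p1.ne' p2.ne'] at p4
  set e := -(Real.log (la / lb) + Real.log (lc / ld)) / 3 with he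
  have he0 : 0 < e := by rw [he]; linarith
  have b1 := bound (w := wv) (x := x0) (l := la) (m := lb) (H := Ha) (G := Hb) (by decide +kernel)
    (by decide +kernel) (by decide +kernel) (by decide +kernel) (by decide +kernel)
    (by decide +kernel) (by decide) e he0
  have b2 := bound (w := ww) (x := x0⁻¹) (l := lc) (m := ld) (H := Hc) (G := Hd)
    (by decide +kernel) (by decide +kernel) (by decide +kernel) (by decide +kernel)
    (by decide +kernel) (by decide +kernel) (by decide) e he0
  refine ⟨(Real.log (la / lb) + e) / Real.log x0, (-Real.log (lc / ld) - e) / Real.log x0,
    div_lt_div_of_pos_right (by linarith) ht, ?_⟩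
  filter_upwards [b1, b2] with n h1 h2
  rw [Rat.cast_inv, Real.log_inv] at h2
  rw [le_div_iff₀ ht, div_le_iff₀ ht]
  constructor <;> linarith

end Pool.Agent.Results.MP_1f54e8_co.FreqOrder
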